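import Pool.Agent.L0h5.TH.LocG3
import Pool.Agent.L0h5.TH.RankA
import Pool.Agent.L0h5.TQ.CrtQ

/-!
# Curves with a point of order 4, by height: the family of all pairs, statements

The curve `y² = x (x - c²) (x - (c² - 4 b))`, `t = (c, b)`.
-/

set_option autoImplicit false

namespace Pool.Agent.L0h5.T4

open Finset Pool.Agent.W262.RK Pool.Agent.L0h5.TF Pool.Agent.L0h5.TH

/-- the product of the forms -/
def f4 (t : ℤ × ℤ) : ℤ := t.1 * t.2 * (t.1 ^ 2 - 4 * t.2)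

/-- the classes: `c` divides `A`, `b` divides `A - B`, `c² - 4 b` divides `B` -/
def cl4 : Fin 3 → Fin 4 := ![0, 2, 1]

/-- even multiplicities -/
def ev4 : Fin 3 → Bool := ![true, false, false]

open Classical in
/-- a quadratic nonresidue -/
noncomputable def nr (p : ℕ) : ℤ :=
  if h : ∃ n : ℤ, ¬ (p : ℤ) ∣ n ∧ sg0 p n = true then h.choose else 1

/-- the constants of the states; the bit of the state is the symbol of `b` for the primes that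
divide `c` -/
noncomputable def kap4 (j : Fin 3) (p : ℕ) (r : ℕ) : Fin 3 → ℤ := fun _ =>
  if j = 0 then (if r = 0 then 1 else nr p) else if j = 1 then 1 else -1

/-- the local conditions of the states -/
noncomputable def LS4 (σ : Fin 3 × Bool) (p : ℕ) : Bool → Bool → Bool → Bool → Prop :=
  LE (cl4 σ.1) (ev4 σ.1) (kap4 σ.1 p (if σ.2 = true then 1 else 0)) false p

open Classical in
/-- the state of `t` at `p` -/
noncomputable def st4 (t : ℤ × ℤ) (p : ℕ) : Fin 3 × Bool :=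
  if (p : ℤ) ∣ t.1 then (0, sg0 p t.2)
  else if (p : ℤ) ∣ t.2 then (1, sg0 p (t.2 / p))
  else (2, sg0 p ((t.1 ^ 2 - 4 * t.2) / p))

/-- RANK4: the rank is bounded by the local count -/
def RANK4 : Prop := ∀ (z y X k E : ℕ) (t : ℤ × ℤ), 3 ≤ z → f4 t ≠ 0 → (f4 t).natAbs ≤ X ^ E →
  1 ≤ E → X < (y + 1) ^ k →
  (2 : ℝ) ^ Module.finrank ℤ (EAB (t.1 ^ 2) (t.1 ^ 2 - 4 * t.2)).toAffine.Point ≤
    4 ^ (z + 2) * (4 ^ E) ^ k * 4 ^ (s2 z y (f4 t)).primeFactors.card *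
      (NL (s1 z y (f4 t)) (fun p => LS4 (st4 t p) p) : ℝ)

/-- CNT4: the count of the pairs with given divisors and states -/
def CNT4 : Prop := ∃ zs : ℕ, ∀ z : ℕ, zs ≤ z → ∃ (C : ℝ) (K y0 : ℕ), 0 ≤ C ∧ 1 ≤ K ∧
  ∀ X y Y : ℕ, y0 ≤ y → z < y → y ^ K ≤ X → ∀ s v u : ℕ, s ∈ (PP z y).divisors →
    v ∈ (PP z y).divisors → u ∈ (PP y Y).divisors → (s * v * u) ^ 8 ≤ X → s.Coprime v →
    ∀ T' : Finset (ℤ × ℤ), (∀ t ∈ T', t.1.natAbs ≤ X ∧ t.2.natAbs ≤ X ^ 2 ∧ f4 t ≠ 0 ∧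
      s1 z y (f4 t) = s ∧ s2 z y (f4 t) = v ∧ (u : ℤ) ∣ f4 t) →
    (∀ t ∈ T', ∀ t' ∈ T', ∀ p ∈ s.primeFactors, st4 t p = st4 t' p) →
    (T'.card : ℝ) ≤ C * (X : ℝ) ^ 3 * ((1 / 2) ^ s.primeFactors.card * gw 1 4 s) *
      ((4 : ℝ) ^ v.primeFactors.card * (gw 1 4 v / v)) *
      ((4 : ℝ) ^ u.primeFactors.card / u) / (Real.log y) ^ 3

end Pool.Agent.L0h5.T4
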